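import Pool.Agent.Helper88.UN.LM
import Pool.Agent.Helper45.UN.LE3
import Pool.Agent.Helper59.TR.Q6
import Pool.Agent.Helper63.FR.FA

/-!
MP_b8862a_ag, project FR, block FB: the Lie algebra theorem with a semisimple element, unitary case.
-/

open Module LieModule LieAlgebra LieAlgebra.IsKilling

attribute [local instance 100] LieRing.ofAssociativeRing

set_option linter.unusedSectionVars false

namespace UN

open MTP MTP.MF Pool.Agent.Helper54.MT

namespace FB

section quad

variable {K : Type*} [Field K] [CharZero K] [IsAlgClosed K] {V : Type*} [AddCommGroup V]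
  [Module K V] [FiniteDimensional K V]
  {L : Type*} [LieRing L] [LieAlgebra K L] [FiniteDimensional K L] [IsKilling K L]
  {H : LieSubalgebra K L} [H.IsCartanSubalgebra]
  [LieRingModule L V] [LieModule K L V] {I : Type*} [Fintype I] {B : WB (V := V) H I}

/-- The coordinates of the image under an element of the Cartan subalgebra. -/
lemma coord_h (h : H) (u : V) (j : I) :
    B.v.repr (toEnd K L V (h : L) u) j = B.w j h * B.v.repr u j := by
  classical
  have h1 : (B.v.coord j) ∘ₗ (toEnd K L V (h : L)) = (B.w j h) • B.v.coord j := by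
    apply B.v.ext
    intro i
    have h2 : toEnd K L V (h : L) (B.v i) = B.w i h • B.v i := B.lie_v i h
    rw [LinearMap.comp_apply, h2, map_smul, LinearMap.smul_apply, Basis.coord_apply,
      Basis.repr_self, smul_eq_mul, smul_eq_mul]
    by_cases hij : j = i
    · rw [hij]
    · rw [Finsupp.single_eq_of_ne hij, mul_zero, mul_zero]
  have h3 := LinearMap.congr_fun h1 u
  rw [LinearMap.comp_apply, LinearMap.smul_apply, Basis.coord_apply, Basis.coord_apply,
    smul_eq_mul] at h3
  exact h3

variable (hy : H52.Hy B)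
include hy

/-- The components at a root. -/
lemma entry {α : H.root} {e f : L} (ht : H52.Tri V α e f) {x : L} {c : K} (hc : c ≠ 0)
    (hfxf : toEnd K L V f * toEnd K L V x * toEnd K L V f = c • toEnd K L V f) {i j : I}
    (hij : H52.Rel B α i j) : H52.en B (toEnd K L V x) i j ≠ 0 := by
  obtain ⟨c', h1, h2⟩ := hy.comp ht x
  have h3 : (c - c') • toEnd K L V f = 0 := by rw [sub_smul, ← hfxf, h1, sub_self]
  have h4 : c = c' := sub_eq_zero.mp ((smul_eq_zero.mp h3).resolve_right (hy.F_ne ht))
  rw [h2 i j hij, ← h4]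
  exact mul_ne_zero hc (hy.en_ne ht hij)

lemma val_left {α : H.root} {e f : L} (ht : H52.Tri V α e f) {x : L} {c : K} (hc : c ≠ 0)
    (hfxf : toEnd K L V f * toEnd K L V x * toEnd K L V f = c • toEnd K L V f) {h : H} {σ : K}
    (hσ : toEnd K L V (h : L) * toEnd K L V x = σ • toEnd K L V x) {j : I}
    (hj : hy.wz j α = 1) : B.w j h = σ := by
  obtain ⟨i, hi⟩ := hy.exRel' hj
  have h1 := entry hy ht hc hfxf hi
  have h2 : toEnd K L V (h : L) (toEnd K L V x (B.v i)) = σ • toEnd K L V x (B.v i) :=
    LinearMap.congr_fun hσ (B.v i)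
  have h3 := coord_h (B := B) h (toEnd K L V x (B.v i)) j
  rw [h2, map_smul, Finsupp.smul_apply, smul_eq_mul] at h3
  have h4 : (B.w j h - σ) * H52.en B (toEnd K L V x) i j = 0 := by
    unfold H52.en
    linear_combination -h3
  exact sub_eq_zero.mp ((mul_eq_zero.mp h4).resolve_right h1)

lemma val_right {α : H.root} {e f : L} (ht : H52.Tri V α e f) {x : L} {c : K} (hc : c ≠ 0)
    (hfxf : toEnd K L V f * toEnd K L V x * toEnd K L V f = c • toEnd K L V f) {h : H} {τ : K}
    (hτ : toEnd K L V x * toEnd K L V (h : L) = τ • toEnd K L V x) {i : I}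
    (hi : hy.wz i α = -1) : B.w i h = τ := by
  obtain ⟨j, hj⟩ := hy.exRel hi
  have h1 := entry hy ht hc hfxf hj
  have h2 : toEnd K L V x (toEnd K L V (h : L) (B.v i)) = τ • toEnd K L V x (B.v i) :=
    LinearMap.congr_fun hτ (B.v i)
  have h3 : toEnd K L V (h : L) (B.v i) = B.w i h • B.v i := B.lie_v i h
  rw [h3, map_smul] at h2
  have h4 : (B.w i h - τ) • toEnd K L V x (B.v i) = 0 := by rw [sub_smul, h2, sub_self]
  rcases smul_eq_zero.mp h4 with h5 | h5
  · exact sub_eq_zero.mp h5
  · exfalso
    apply h1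
    unfold H52.en
    rw [h5, map_zero, Finsupp.zero_apply]

/-- The value of the root. -/
lemma val_root {α : H.root} {e f : L} (ht : H52.Tri V α e f) {x : L} {c : K} (hc : c ≠ 0)
    (hfxf : toEnd K L V f * toEnd K L V x * toEnd K L V f = c • toEnd K L V f) {h : H} {σ τ : K}
    (hσ : toEnd K L V (h : L) * toEnd K L V x = σ • toEnd K L V x)
    (hτ : toEnd K L V x * toEnd K L V (h : L) = τ • toEnd K L V x) : α.1 h = σ - τ := by
  obtain ⟨i, hi⟩ := hy.exists_neg α
  obtain ⟨j, hj⟩ := hy.exRel hi
  have h1 := hj h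
  rw [val_left hy ht hc hfxf hσ (hy.rel_self hj).2, val_right hy ht hc hfxf hτ hi] at h1
  linear_combination -h1

/-- The quadratic relation on the kernel modulo the image. -/
theorem quad {α : H.root} {e f : L} (ht : H52.Tri V α e f) {x : L} {c : K} (hc : c ≠ 0)
    (hfxf : toEnd K L V f * toEnd K L V x * toEnd K L V f = c • toEnd K L V f)
    (hxx : toEnd K L V x * toEnd K L V x = 0) {h : H} {σ τ : K}
    (hσ : toEnd K L V (h : L) * toEnd K L V x = σ • toEnd K L V x)
    (hτ : toEnd K L V x * toEnd K L V (h : L) = τ • toEnd K L V x) {a b : K}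
    (hab : ∀ i, hy.wz i α = 0 → B.w i h = a ∨ B.w i h = b) :
    ∀ v, toEnd K L V x v = 0 → ∃ w, toEnd K L V (h : L) (toEnd K L V (h : L) v) -
      (a + b) • toEnd K L V (h : L) v + (a * b) • v = toEnd K L V x w := by
  classical
  intro v hv
  set N := toEnd K L V x with hN
  set F := toEnd K L V f with hF
  set E := toEnd K L V e with hE
  set T := toEnd K L V (h : L) with hT
  have hTN : ∀ u, T (N u) = σ • N u := fun u => LinearMap.congr_fun hσ u
  have hNT : ∀ u, N (T u) = τ • N u := fun u => LinearMap.congr_fun hτ u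
  have hFNF : ∀ u, F (N (F u)) = c • F u := fun u => LinearMap.congr_fun hfxf u
  have hNN : ∀ u, N (N u) = 0 := fun u => LinearMap.congr_fun hxx u
  -- the quadratic polynomial
  set Q : Module.End K V := T * T - (a + b) • T + (a * b) • 1 with hQ
  have hQa : ∀ u, Q u = T (T u) - (a + b) • T u + (a * b) • u := fun u => rfl
  have hQi : ∀ i, Q (B.v i) = ((B.w i h - a) * (B.w i h - b)) • B.v i := by
    intro i
    have h3 : T (B.v i) = B.w i h • B.v i := B.lie_v i h
    rw [hQa, h3, map_smul, h3]
    module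
  have hQN : ∀ u, Q (N u) = (σ ^ 2 - (a + b) * σ + a * b) • N u := by
    intro u
    rw [hQa, hTN, map_smul, hTN]
    module
  have hNQ : ∀ u, N (Q u) = (τ ^ 2 - (a + b) * τ + a * b) • N u := by
    intro u
    rw [hQa, map_add, map_sub, map_smul, map_smul, hNT, hNT]
    module
  set z : V := v - c⁻¹ • N (F v) with hz
  have hNz : N z = 0 := by rw [hz, map_sub, map_smul, hNN, hv, smul_zero, sub_zero]
  have hFz : F z = 0 := by
    rw [hz, map_sub, map_smul, hFNF, smul_smul, inv_mul_cancel₀ hc, one_smul, sub_self]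
  -- the coordinates of `z`
  have hzj : ∀ j, hy.wz j α = 1 → B.v.repr z j = 0 := by
    intro j hj
    have h1 : (B.v.coord j) ∘ₗ E ∘ₗ F = B.v.coord j := by
      apply B.v.ext
      intro l
      rw [LinearMap.comp_apply, LinearMap.comp_apply]
      by_cases hl : hy.wz l α = 1
      · rw [hy.ef ht hl]
      · rw [hy.act_zero ht.hf (by rw [hy.wz_ng]; omega), map_zero, map_zero, Basis.coord_apply,
          Basis.repr_self, Finsupp.single_eq_of_ne]
        rintro rfl
        exact hl hj
    have h2 := LinearMap.congr_fun h1 z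
    rw [LinearMap.comp_apply, LinearMap.comp_apply, hFz, map_zero, map_zero] at h2
    exact h2.symm
  have hQz : Q z ∈ LinearMap.range F := by
    rw [← B.v.sum_repr z, map_sum]
    refine Submodule.sum_mem _ fun i _ => ?_
    rw [map_smul, hQi]
    rcases hy.wz_mem i α with h1 | h1 | h1
    · refine Submodule.smul_mem _ _ (Submodule.smul_mem _ _ ?_)
      exact ⟨E (B.v i), hy.fe ht h1⟩
    · rcases hab i h1 with h2 | h2
      · rw [h2, sub_self, zero_mul, zero_smul, smul_zero]
        exact zero_mem _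
      · rw [h2, sub_self, mul_zero, zero_smul, smul_zero]
        exact zero_mem _
    · rw [hzj i h1, zero_smul]
      exact zero_mem _
  obtain ⟨u, hu⟩ := hQz
  have hQz0 : Q z = 0 := by
    have h1 : N (F u) = 0 := by rw [hu, hNQ, hNz, smul_zero]
    have h2 := hFNF u
    rw [h1, map_zero] at h2
    rw [← hu]
    exact (smul_eq_zero.mp h2.symm).resolve_left hc
  refine ⟨(c⁻¹ * (σ ^ 2 - (a + b) * σ + a * b)) • F v, ?_⟩
  have h1 : v = z + c⁻¹ • N (F v) := by rw [hz]; abel
  rw [← hQa, map_smul, mul_smul, ← hQN, ← map_smul]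
  nth_rewrite 1 [h1]
  rw [map_add, hQz0, zero_add]

end quad

section cartan

variable {K : Type*} [Field K] [CharZero K] [IsAlgClosed K] {V : Type*} [AddCommGroup V]
  [Module K V] [FiniteDimensional K V]

/-- A Cartan subalgebra containing the coweight and the rational semisimple element. -/
theorem exists_cartan_two {L : LieSubalgebra K (Module.End K V)} [IsKilling K L]
    {P : Module.End K V} (hP : P * P = P) {d : K} (hd : P - d • 1 ∈ L)
    {h : Module.End K V} (hh : h ∈ L) (hPh : P * h = h * P)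
    (hdiag : ⨆ q : ℚ, h.eigenspace (q : K) = ⊤) :
    ∃ H : LieSubalgebra K L, H.IsCartanSubalgebra ∧ (⟨P - d • 1, hd⟩ : L) ∈ H ∧
      (⟨h, hh⟩ : L) ∈ H := by
  classical
  have hrsd : RSD ({h} : Set (Module.End K V)) := by
    unfold RSD
    rw [eq_top_iff, ← hdiag]
    apply iSup_le
    intro q v hv
    rw [Module.End.mem_eigenspace_iff] at hv
    apply Submodule.subset_span
    rintro z hz
    rw [Set.mem_singleton_iff] at hz
    subst hz
    exact ⟨q, hv⟩
  set s : Module.End K V := (2 : K) • P - 1 with hs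
  have hss : s * s = 1 := by
    have : s * s = (4 : K) • (P * P) - (4 : K) • P + 1 := by
      rw [hs, sub_mul, mul_sub, mul_one, one_mul, smul_mul_smul_comm]
      module
    rw [this, hP]
    module
  have hsh : s * h = h * s := by
    rw [hs, sub_mul, mul_sub, smul_mul_assoc, mul_smul_comm, hPh, one_mul, mul_one]
  obtain ⟨b, hb⟩ := (hrsd.adjoin hss (by
    rintro z hz
    rw [Set.mem_singleton_iff] at hz
    subst hz
    exact hsh)).basis
  obtain ⟨a0, ha0⟩ := hb h (Or.inr rfl)
  obtain ⟨a1, ha1⟩ := hb s (Or.inl rfl)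
  have hPb : ∀ i, P (b i) = (((a1 i + 1) / 2 : ℚ) : K) • b i := by
    intro i
    have h1 : P = (2 : K)⁻¹ • (s + 1) := by
      rw [hs, sub_add_cancel, smul_smul, inv_mul_cancel₀ (two_ne_zero), one_smul]
    rw [h1, LinearMap.smul_apply, LinearMap.add_apply, ha1, Module.End.one_apply]
    push_cast
    module
  obtain ⟨t, ht⟩ := TR.q6_sep a0 (fun i => (a1 i + 1) / 2)
  set y : Module.End K V := h + (t : K) • P with hy
  have hyb : ∀ i, y (b i) = ((a0 i + t * ((a1 i + 1) / 2) : ℚ) : K) • b i := by
    intro i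
    rw [hy, LinearMap.add_apply, LinearMap.smul_apply, ha0, hPb, smul_smul, ← add_smul]
    push_cast
    rfl
  set g : Module.End K V := h + (t : K) • (P - d • 1) with hg
  have hgL : g ∈ L := L.add_mem hh (L.smul_mem _ hd)
  have hgy : g = y - ((t : K) * d) • 1 := by
    rw [hg, hy]
    module
  have hgss : g.IsSemisimple := by
    apply semisimple_of_diag
    rw [eq_top_iff, ← b.span_eq, Submodule.span_le]
    rintro _ ⟨i, rfl⟩
    refine Submodule.mem_iSup_of_mem
      (((a0 i + t * ((a1 i + 1) / 2) : ℚ) : K) - (t : K) * d)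
      (Module.End.mem_eigenspace_iff.mpr ?_)
    rw [hgy, LinearMap.sub_apply, hyb, LinearMap.smul_apply, Module.End.one_apply, sub_smul]
  obtain ⟨H, hH, hgH⟩ := exists_cartan_end (L := L) ⟨g, hgL⟩ hgss
  have habel : IsLieAbelian H := inferInstance
  -- what commutes with `g`
  have hcomm : ∀ x ∈ H, y * (x : Module.End K V) = (x : Module.End K V) * y := by
    intro x hx
    have h2 : ⁅(⟨⟨g, hgL⟩, hgH⟩ : H), (⟨x, hx⟩ : H)⁆ = 0 := trivial_lie_zero H H _ _
    have h3 : ((⁅(⟨⟨g, hgL⟩, hgH⟩ : H), (⟨x, hx⟩ : H)⁆ : H) : L) = ⁅(⟨g, hgL⟩ : L), x⁆ := rfl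
    rw [h2] at h3
    have h4 : ((⁅(⟨g, hgL⟩ : L), x⁆ : L) : Module.End K V) =
        g * (x : Module.End K V) - (x : Module.End K V) * g := rfl
    rw [← h3] at h4
    have h5 : g * (x : Module.End K V) = (x : Module.End K V) * g := sub_eq_zero.mp h4.symm
    rw [hgy, sub_mul, mul_sub, smul_mul_assoc, mul_smul_comm, one_mul, mul_one] at h5
    exact sub_left_injective h5
  have hmem : ∀ z : L, (∀ x ∈ H, (z : Module.End K V) * (x : Module.End K V) =
      (x : Module.End K V) * (z : Module.End K V)) → z ∈ H := by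
    intro z hz
    rw [← hH.self_normalizing, LieSubalgebra.mem_normalizer_iff]
    intro x hx
    have : ⁅z, x⁆ = 0 := by
      apply Subtype.ext
      change (z : Module.End K V) * (x : Module.End K V) -
        (x : Module.End K V) * (z : Module.End K V) = 0
      rw [hz x hx, sub_self]
    rw [this]
    exact H.zero_mem
  refine ⟨H, hH, ?_, ?_⟩
  · apply hmem
    intro x hx
    have h1 := TR.q6_comm b hyb hPb (fun i j hij => (ht i j hij).2) (hcomm x hx)
    change (P - d • 1) * (x : Module.End K V) = (x : Module.End K V) * (P - d • 1)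
    rw [sub_mul, mul_sub, h1, smul_mul_assoc, mul_smul_comm, one_mul, mul_one]
  · apply hmem
    intro x hx
    exact TR.q6_comm b hyb ha0 (fun i j hij => (ht i j hij).1) (hcomm x hx)

end cartan

end FB

variable {K : Type*} [Field K] [CharZero K] [IsAlgClosed K] {V : Type*} [AddCommGroup V]
  [Module K V] [FiniteDimensional K V]

/-- FB -/
theorem lie_frob {L : LieSubalgebra K (Module.End K V)}
    (hirr : ∀ W : Submodule K V, (∀ z ∈ L, ∀ w ∈ W, z w ∈ W) → W = ⊥ ∨ W = ⊤)
    (htr : ∀ z ∈ L, LinearMap.trace K V z = 0) (hsimple : LieAlgebra.IsSimple K L)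
    (hform : ∀ b : LinearMap.BilinForm K V, (∀ z ∈ L, ∀ u v, b (z u) v = - b u (z v)) → b = 0)
    {P : Module.End K V} (hP : P * P = P) (h0 : P ≠ 0) (h1 : P ≠ 1) {d : K}
    (hd : P - d • 1 ∈ L) {N h : Module.End K V} (hN : N ∈ L) (hNN : N * N = 0) (hN0 : N ≠ 0)
    (hPN : P * N = N) (hNP : N * P = 0) (hh : h ∈ L) (hPh : P * h = h * P)
    (hdiag : ⨆ q : ℚ, h.eigenspace (q : K) = ⊤) {σ τ : K} (hσ : h * N = σ • N)
    (hτ : N * h = τ • N) :
    (∀ z, LinearMap.trace K V z = 0 → z ∈ L) ∨
    ∃ a b : K, ∀ v, N v = 0 → ∃ w, h (h v) - (a + b) • h v + (a * b) • v = N w := by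
  classical
  have hV : Nontrivial V := by
    by_contra hcon
    rw [not_nontrivial_iff_subsingleton] at hcon
    exact hN0 (Subsingleton.elim _ _)
  have hk : IsKilling K L := killing_tr hirr htr
  obtain ⟨H, hH, hsH, hhH⟩ := FB.exists_cartan_two (L := L) hP hd hh hPh hdiag
  have hirrR : (rootSystem H).IsIrreducible := inferInstance
  have hne : Nonempty H.root := by
    by_contra hcon
    rw [not_nonempty_iff] at hcon
    have hN : Nontrivial H := RootPairing.IsIrreducible.nontrivial' (rootSystem H)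
    have h1 : (⊤ : Submodule K H) = ⊥ := by
      have h2 : (rootSystem H).corootSpan K = ⊤ := RootPairing.IsRootSystem.span_coroot_eq_top
      rw [← h2, RootPairing.corootSpan, Set.range_eq_empty, Submodule.span_empty]
    exact bot_ne_top h1.symm
  have hirr' : ∀ W : Submodule K V, (∀ x : L, ∀ u ∈ W, ⁅x, u⁆ ∈ W) → W = ⊥ ∨ W = ⊤ :=
    fun W hW => hirr W fun z hz w hw => hW ⟨z, hz⟩ w hw
  have hfaith : ∀ x : L, (∀ u : V, ⁅x, u⁆ = 0) → x = 0 := by
    intro x hx
    apply Subtype.ext
    ext u
    exact hx u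
  obtain ⟨n₀, ⟨B⟩⟩ := exists_WB (V := V) (H := H) hirr'
  set s' : H := ⟨⟨P - d • 1, hd⟩, hsH⟩ with hs'
  set h' : H := ⟨⟨h, hh⟩, hhH⟩ with hh'
  have hPv : ∀ i, P (B.v i) = (B.w i s' + d) • B.v i := by
    intro i
    have h2 : (P - d • (1 : Module.End K V)) (B.v i) = B.w i s' • B.v i := B.lie_v i s'
    rw [LinearMap.sub_apply, LinearMap.smul_apply, Module.End.one_apply, sub_eq_iff_eq_add] at h2
    rw [h2, add_smul]
  have hval : ∀ i, B.w i s' + d = 1 ∨ B.w i s' + d = 0 := by
    intro i
    have h2 : P (P (B.v i)) = P (B.v i) := LinearMap.congr_fun hP (B.v i)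
    rw [hPv, map_smul, hPv, smul_smul] at h2
    have h3 : ((B.w i s' + d) * (B.w i s' + d) - (B.w i s' + d)) • B.v i = 0 := by
      rw [sub_smul, h2, sub_self]
    have h4 := (smul_eq_zero.mp h3).resolve_right (B.v.ne_zero i)
    have h5 : (B.w i s' + d - 1) * (B.w i s' + d) = 0 := by linear_combination h4
    rcases mul_eq_zero.mp h5 with h6 | h6
    · left; linear_combination h6
    · right; exact h6
  have hs : ∀ i, B.w i s' = 1 - d ∨ B.w i s' = (1 - d) - 1 := by
    intro i
    rcases hval i with h2 | h2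
    · left; linear_combination h2
    · right; linear_combination h2
  have hs0 : s' ≠ 0 := by
    intro h2
    have h3 : ∀ i, P (B.v i) = d • B.v i := by
      intro i
      rw [hPv, h2, map_zero, zero_add]
    have h4 : P = d • 1 := B.v.ext fun i => by rw [h3]; rfl
    obtain ⟨u, hu⟩ := exists_ne (0 : V)
    rw [h4] at hP
    have h5 := LinearMap.congr_fun hP u
    simp only [Module.End.mul_apply, LinearMap.smul_apply, Module.End.one_apply,
      smul_smul] at h5
    have h6 : (d * d - d) • u = 0 := by rw [sub_smul, h5, sub_self]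
    have h7 := (smul_eq_zero.mp h6).resolve_right hu
    have h8 : d * (d - 1) = 0 := by linear_combination h7
    rcases mul_eq_zero.mp h8 with h9 | h9
    · exact h0 (by rw [h4, h9, zero_smul])
    · exact h1 (by rw [h4, sub_eq_zero.mp h9, one_smul])
  have hsq : ∀ (α : H.root) (x : L), x ∈ rootSpace H α.1 →
      toEnd K L V x * toEnd K L V x = 0 := fun α x hx => sq_zero B hfaith hs hs0 α hx
  have hinj : Function.Injective B.w := mult_one B hirr' hsq
  set X : Finset (Dual K H) := Finset.univ.image B.w with hX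
  have hU : USit (rootSystem H) X (Module.Dual.eval K H s') (1 - d) :=
    usit B hirr' hfaith hsq hs hs0
  have hspan : (rootSystem H).rootSpan K = ⊤ := RootPairing.IsRootSystem.span_root_eq_top
  have hsmall : ∀ (i : Fin n₀) (α : H.root), B.w i (coroot α.1) = -1 ∨ B.w i (coroot α.1) = 0 ∨
      B.w i (coroot α.1) = 1 := by
    intro i α
    have h2 := TR.B45.small' B hsq i α
    rw [TR.B45.coroot'_eq] at h2
    exact h2
  -- counts
  have hcard : ∀ p : Dual K H → Prop, (X.filter p).card =
      (Finset.univ.filter (fun i => p (B.w i))).card := by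
    intro p
    rw [hX, Finset.filter_image, Finset.card_image_of_injective _ hinj]
  have hneg : ¬ ∀ x ∈ X, -x ∈ X := by
    intro h2
    obtain ⟨b, hb0, hb⟩ := exists_form B hirr hinj hsmall (by
      intro i
      have h3 := h2 (B.w i) (Finset.mem_image_of_mem _ (Finset.mem_univ _))
      obtain ⟨j, -, hj⟩ := Finset.mem_image.mp h3
      exact ⟨j, hj⟩)
    exact hb0 (hform b hb)
  obtain ⟨α₀⟩ := hne
  have hlen : ∀ i, len (rootSystem H) i = len (rootSystem H) α₀ := by
    intro i
    by_contra h2
    exact hneg (USit.neg_of_len hU hspan h2)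
  have hSL := USit.toUSL hU hspan hlen
  have hbf : ∀ (x : Dual K H) (α : H.root),
      TR.bf (rootSystem H) (len (rootSystem H) α₀) x ((rootSystem H).root α) =
        x (coroot α.1) := by
    intro x α
    rw [TR.bf_one (hlen α), TR.B45.coroot'_eq]
  have hcount : ∀ α : H.root, (X.filter (fun x =>
      TR.bf (rootSystem H) (len (rootSystem H) α₀) x ((rootSystem H).root α) = 1)).card =
      (Finset.univ.filter (fun i => B.w i (coroot α.1) = 1)).card := by
    intro α
    rw [hcard]
    simp only [hbf]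
  have hmem : ∀ α, (rootSystem H).root α ∈ Finset.univ.image (rootSystem H).root :=
    fun α => Finset.mem_image_of_mem _ (Finset.mem_univ α)
  have hmX : ∀ i, B.w i ∈ X := fun i => Finset.mem_image_of_mem _ (Finset.mem_univ i)
  by_cases hr : ∃ a ∈ Finset.univ.image (rootSystem H).root, Module.Dual.eval K H s' a = 1 ∧
      (X.filter (fun x => TR.bf (rootSystem H) (len (rootSystem H) α₀) x a = 1)).card ≠ 1
  · right
    have hy : H52.Hy B :=
      { inj := hinj
        sq := hsq
        faith := by
          intro x hx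
          apply Subtype.ext
          ext u
          exact LinearMap.congr_fun hx u
        sl := by
          intro α β hαβ hne2
          have hp := hSL.pair _ (hmem α) _ (hmem β)
            (fun h2 => hαβ ((rootSystem H).root.injective h2)) hne2
          have e : TR.bf (rootSystem H) (len (rootSystem H) α₀) ((rootSystem H).root α)
              ((rootSystem H).root β) = ((rootSystem H).pairingIn ℤ α β : K) := by
            rw [TR.bf_one (hlen β), pair_cast]
          rw [e] at hp
          rcases hp with h2 | h2 | h2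
          · left; exact_mod_cast h2
          · right; left; exact_mod_cast h2
          · right; right; exact_mod_cast h2 }
    have hNt : toEnd K L V (⟨N, hN⟩ : L) = N := by
      ext u
      rfl
    have hht : toEnd K L V (h' : L) = h := by
      ext u
      rfl
    have hst : toEnd K L V (s' : L) = P - d • 1 := by
      ext u
      rfl
    obtain ⟨α, e, f, c, ht, hc, hfxf⟩ := hy.exists_comp (x := ⟨N, hN⟩) (by rw [hNt, hNN])
      (by rw [hNt]; exact hN0)
    have hxx : toEnd K L V (⟨N, hN⟩ : L) * toEnd K L V (⟨N, hN⟩ : L) = 0 := by rw [hNt, hNN]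
    have hσ' : toEnd K L V (h' : L) * toEnd K L V (⟨N, hN⟩ : L) =
        σ • toEnd K L V (⟨N, hN⟩ : L) := by rw [hNt, hht, hσ]
    have hτ' : toEnd K L V (⟨N, hN⟩ : L) * toEnd K L V (h' : L) =
        τ • toEnd K L V (⟨N, hN⟩ : L) := by rw [hNt, hht, hτ]
    have hsα : α.1 s' = 1 := by
      have h2 := FB.val_root hy ht hc hfxf (h := s') (σ := 1 - d) (τ := -d)
        (by rw [hNt, hst, sub_mul, hPN, smul_mul_assoc, one_mul]; module)
        (by rw [hNt, hst, mul_sub, hNP, mul_smul_comm, mul_one]; module)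
      rw [h2]
      ring
    have hsα' : Module.Dual.eval K H s' ((rootSystem H).root α) = 1 := hsα
    -- orthogonal roots
    have hB : ∀ γ ∈ Finset.univ.image (rootSystem H).root,
        TR.bf (rootSystem H) (len (rootSystem H) α₀) γ ((rootSystem H).root α) = 0 →
        Module.Dual.eval K H s' γ = 0 → ∃ z ∈ X,
          TR.bf (rootSystem H) (len (rootSystem H) α₀) z ((rootSystem H).root α) = 1 ∧
          TR.bf (rootSystem H) (len (rootSystem H) α₀) z γ ≠ 0 := by
      by_cases hpq : (X.filter (fun x => Module.Dual.eval K H s' x = 1 - d)).card =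
          (X.filter (fun x => Module.Dual.eval K H s' x = 1 - d - 1)).card
      · exact hSL.hit_half hpq hneg hr (hmem α) hsα'
      · obtain ⟨n, k, -, -, -, -, -, -, hQ⟩ := hSL.count hpq
          (hSL.adjacent (fun a ha hsa => hSL.local_form hpq ha hsa) hr) hr
        intro γ hγ hγα _
        obtain ⟨x, hx, hx1, hx2⟩ := hQ _ (hmem α) γ hγ (by rw [hSL.symm]; exact hγα)
        refine ⟨x, hx, hx1, ?_⟩
        rw [hx2]
        exact neg_ne_zero.mpr one_ne_zero
    have hcst : ∀ i j, hy.wz i α = 0 → hy.wz j α = 0 → B.w i s' = B.w j s' →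
        B.w i h' = B.w j h' := by
      intro i j hi hj hij
      refine hSL.const (hmem α) hsα' hB (Module.Dual.eval K H h') ?_ (hmX i) (hmX j) hij ?_ ?_
      · intro x hx y hy' hx1 hy1
        obtain ⟨k, -, rfl⟩ := Finset.mem_image.mp hx
        obtain ⟨l, -, rfl⟩ := Finset.mem_image.mp hy'
        rw [hbf, hy.wz_cast] at hx1 hy1
        have hk : hy.wz k α = 1 := by exact_mod_cast hx1
        have hl : hy.wz l α = 1 := by exact_mod_cast hy1
        change B.w k h' = B.w l h'
        rw [FB.val_left hy ht hc hfxf hσ' hk, FB.val_left hy ht hc hfxf hσ' hl]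
      · rw [hbf, hy.wz_cast, hi, Int.cast_zero]
      · rw [hbf, hy.wz_cast, hj, Int.cast_zero]
    have key : ∀ cc : K, ∃ a : K, ∀ i, hy.wz i α = 0 → B.w i s' = cc → B.w i h' = a := by
      intro cc
      by_cases hex : ∃ i, hy.wz i α = 0 ∧ B.w i s' = cc
      · obtain ⟨i0, hi0, hi1⟩ := hex
        exact ⟨B.w i0 h', fun i hi hic => hcst i i0 hi hi0 (by rw [hic, hi1])⟩
      · exact ⟨0, fun i hi hic => absurd ⟨i, hi, hic⟩ hex⟩
    obtain ⟨a, ha⟩ := key (1 - d)
    obtain ⟨b, hb⟩ := key (1 - d - 1)
    refine ⟨a, b, fun v hv => ?_⟩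
    have h2 := FB.quad hy ht hc hfxf hxx hσ' hτ' (a := a) (b := b) (fun i hi => by
      rcases hs i with h3 | h3
      · exact Or.inl (ha i hi h3)
      · exact Or.inr (hb i hi h3)) v (by rw [hNt]; exact hv)
    rw [hNt, hht] at h2
    exact h2
  · left
    push Not at hr
    intro z hz
    refine sl_of_one B hinj hsq ?_ ?_ hz
    · intro i j hij
      obtain ⟨g, hg, hg1, hg2⟩ := hSL.sep (B.w i) (Finset.mem_image_of_mem _ (Finset.mem_univ _))
        (B.w j) (Finset.mem_image_of_mem _ (Finset.mem_univ _)) (fun h => hij (hinj h))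
      obtain ⟨α, -, rfl⟩ := Finset.mem_image.mp hg
      rw [hbf] at hg1 hg2
      exact ⟨α, hg1, hg2⟩
    · intro α
      rw [← hcount]
      exact LE3.card_one hSL hr (Finset.mem_image_of_mem _ (Finset.mem_univ _))

end UN
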